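import Pool.Agent.V5helper87.ZM.Stm

/-!
Project ZM, job PUF: the value of `push` at `ψ(z) α(F)`.
-/

set_option autoImplicit false

open scoped Matrix Pointwise

namespace Pool.Agent.V5helper53.ZM

open Pool.Agent.H919R4.ZS Pool.Agent.TH38.CX Pool.Agent.TH38.ZT Pool.Agent.V5helper87.ZM

noncomputable section

variable {G : Type} [Group G] {C : Subgroup G} {A B : Type} [NormedRing A] [NormedRing B]
  (fr : Frame C A B)

lemma incl_sg (c : C) : incl C (sg c) = sg (c : G) := by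
  simp [incl, sg]

lemma e_sg_mem (w : B) (c : C) : fr.e (fr.ψ w * fr.α (sg (c : G))) = w * fr.β (sg c) := by
  rw [fr.e_ψ_mul, ← incl_sg, ← fr.ψ_β]
  have h := fr.e_mul_ψ 1 (fr.β (sg c))
  rw [one_mul, fr.e_one, one_mul] at h
  rw [h]

lemma e_sg_not (w : B) (g : G) (hg : g ∉ C) : fr.e (fr.ψ w * fr.α (sg g)) = 0 := by
  rw [fr.e_ψ_mul, fr.e_not g hg, mul_zero]

lemma single_eq (h : G) (m : ℤ) : (MonoidAlgebra.single h m : ZG G) = m • sg h := by
  rw [sg, MonoidAlgebra.smul_single, smul_eq_mul, mul_one]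

lemma key {m n : ℕ} (K : G → Fin m → Fin n → ZG C) (hK : Equi K) (w : B) (b : Fin m) (j : Fin n)
    (r : ZG G) :
    (Function.support (fun q : G ⧸ C =>
      fr.e (fr.ψ w * fr.α r * fr.α (sg q.out)) * fr.β (K q.out⁻¹ b j))).Finite ∧
    ∑ᶠ q : G ⧸ C, fr.e (fr.ψ w * fr.α r * fr.α (sg q.out)) * fr.β (K q.out⁻¹ b j) =
      w * fr.β (lin (fun h => K h b j) r) := by
  induction r using MonoidAlgebra.induction_linear with
  | zero => simp
  | add r s hr hs =>
    have e : (fun q : G ⧸ C =>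
        fr.e (fr.ψ w * fr.α (r + s) * fr.α (sg q.out)) * fr.β (K q.out⁻¹ b j)) =
        fun q : G ⧸ C => fr.e (fr.ψ w * fr.α r * fr.α (sg q.out)) * fr.β (K q.out⁻¹ b j) +
          fr.e (fr.ψ w * fr.α s * fr.α (sg q.out)) * fr.β (K q.out⁻¹ b j) := by
      funext q
      rw [map_add, mul_add, add_mul, map_add, add_mul]
    rw [e]
    refine ⟨(hr.1.union hs.1).subset (Function.support_add _ _), ?_⟩
    rw [finsum_add_distrib hr.1 hs.1, hr.2, hs.2, lin_add, map_add, mul_add]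
  | single h k =>
    have hz : ∀ q : G ⧸ C, q ≠ (QuotientGroup.mk h⁻¹ : G ⧸ C) →
        fr.e (fr.ψ w * fr.α (MonoidAlgebra.single h k) * fr.α (sg q.out)) *
          fr.β (K q.out⁻¹ b j) = 0 := by
      intro q hq
      have hn : h * q.out ∉ C := by
        intro hm
        apply hq
        rw [← QuotientGroup.out_eq' q]
        refine (QuotientGroup.eq.2 ?_).symm
        rw [inv_inv]
        exact hm
      rw [single_eq, map_zsmul, mul_smul_comm, smul_mul_assoc, map_zsmul, mul_assoc, ← map_mul,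
        sg_mul, e_sg_not fr w _ hn, smul_zero, zero_mul]
    refine ⟨(Set.finite_singleton (QuotientGroup.mk h⁻¹ : G ⧸ C)).subset ?_, ?_⟩
    · intro q hq
      by_contra hne
      exact hq (hz q hne)
    · rw [finsum_eq_single _ (QuotientGroup.mk h⁻¹ : G ⧸ C) hz, lin_single]
      set p : G := (QuotientGroup.mk h⁻¹ : G ⧸ C).out with hp
      have hc : h * p ∈ C := by
        have h1 : (QuotientGroup.mk h⁻¹ : G ⧸ C) = QuotientGroup.mk p := by
          rw [hp, QuotientGroup.out_eq']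
        have h2 := QuotientGroup.eq.1 h1
        rwa [inv_inv] at h2
      have hk : K h b j = sg (⟨h * p, hc⟩ : C) * K p⁻¹ b j := by
        rw [← hK ⟨h * p, hc⟩ p⁻¹ b j]
        simp
      rw [single_eq, map_zsmul, mul_smul_comm, smul_mul_assoc, map_zsmul, mul_assoc, ← map_mul,
        sg_mul, e_sg_mem fr w ⟨h * p, hc⟩, hk, map_zsmul, map_mul, smul_mul_assoc, mul_smul_comm,
        mul_assoc]

theorem t_PUF : S_PUF := by
  intro G _ C A B _ _ fr m n k K hK F z
  funext j
  have e : (fun q : G ⧸ C => ∑ b, fr.e (((fun a => fr.ψ (z a)) ᵥ* F.map fr.α) b *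
      fr.α (sg q.out)) * fr.β (K q.out⁻¹ b j)) =
      fun q : G ⧸ C => ∑ b, ∑ a, fr.e (fr.ψ (z a) * fr.α (F a b) * fr.α (sg q.out)) *
        fr.β (K q.out⁻¹ b j) := by
    funext q
    refine Finset.sum_congr rfl fun b _ => ?_
    simp only [Matrix.vecMul, dotProduct, Matrix.map_apply]
    rw [Finset.sum_mul, map_sum, Finset.sum_mul]
  have hfin : ∀ (b : Fin m) (a : Fin k), (Function.support (fun q : G ⧸ C =>
      fr.e (fr.ψ (z a) * fr.α (F a b) * fr.α (sg q.out)) * fr.β (K q.out⁻¹ b j))).Finite :=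
    fun b a => (key fr K hK (z a) b j (F a b)).1
  have hfin2 : ∀ b : Fin m, (Function.support (fun q : G ⧸ C => ∑ a,
      fr.e (fr.ψ (z a) * fr.α (F a b) * fr.α (sg q.out)) * fr.β (K q.out⁻¹ b j))).Finite := by
    intro b
    refine (Set.finite_iUnion (hfin b)).subset ?_
    intro q hq
    by_contra hne
    apply hq
    refine Finset.sum_eq_zero fun a _ => ?_
    by_contra h0
    exact hne (Set.mem_iUnion.2 ⟨a, h0⟩)
  change (∑ᶠ q : G ⧸ C, ∑ b, fr.e (((fun a => fr.ψ (z a)) ᵥ* F.map fr.α) b *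
      fr.α (sg q.out)) * fr.β (K q.out⁻¹ b j)) = _
  rw [e, finsum_sum_comm _ _ fun b _ => hfin2 b]
  have e2 : ∀ b : Fin m, (∑ᶠ q : G ⧸ C, ∑ a,
      fr.e (fr.ψ (z a) * fr.α (F a b) * fr.α (sg q.out)) * fr.β (K q.out⁻¹ b j)) =
      ∑ a, z a * fr.β (lin (fun h => K h b j) (F a b)) := by
    intro b
    rw [finsum_sum_comm _ _ fun a _ => hfin b a]
    exact Finset.sum_congr rfl fun a _ => (key fr K hK (z a) b j (F a b)).2
  rw [Finset.sum_congr rfl fun b _ => e2 b, Finset.sum_comm]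
  simp only [Matrix.vecMul, dotProduct, Matrix.of_apply]
  refine Finset.sum_congr rfl fun a _ => ?_
  rw [map_sum, Finset.mul_sum]

end

end Pool.Agent.V5helper53.ZM
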